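import Pool.Agent.MP_a2da35_lc.Mg.Det_Main

namespace Pool.Agent.Results.MP_a2da35_lc.DetGapETH

open Pool.Agent.MP_a2da35_lc Filter Topology

/-- Under (deterministic) Gap-ETH, for every `c ≥ 1`, every `f` and every `g = o(k)`, no algorithm
running in time `f(k) N^{g(k)}` approximates k-Biclique within factor `c`. -/
theorem result (H : DetGapETH) (c : ℝ) (hc : 1 ≤ c) (f g : ℕ → ℝ)
    (hg : Tendsto (fun k : ℕ => g k / k) atTop (𝓝 0)) :
    ¬ ∃ M : Turing.TM2ComputableAux Bool Bool,
      DetApproximates M c (fun N k => f k * (N : ℝ) ^ g k) :=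
  det_main H c hc f g hg

end Pool.Agent.Results.MP_a2da35_lc.DetGapETH
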